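import Mathlib

set_option autoImplicit false

namespace Pool.Agent.Results.MP_a2bf4b_an.Exists

lemma fl (x y : ℝ) : ⌊((⌊x⌋ + ⌊y⌋ : ℤ) : ℝ) + (Int.fract x + Int.fract y) / 2⌋ = ⌊x⌋ + ⌊y⌋ := by
  rw [Int.floor_eq_iff]
  have h1 := Int.fract_nonneg x
  have h2 := Int.fract_nonneg y
  have h3 := Int.fract_lt_one x
  have h4 := Int.fract_lt_one y
  constructor <;> linarith

lemma fr (x y : ℝ) : Int.fract (((⌊x⌋ + ⌊y⌋ : ℤ) : ℝ) + (Int.fract x + Int.fract y) / 2)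
    = (Int.fract x + Int.fract y) / 2 := by
  rw [Int.fract, fl]; ring

lemma sm (y : ℝ) : StrictMono (fun x : ℝ =>
    ((⌊x⌋ + ⌊y⌋ : ℤ) : ℝ) + (Int.fract x + Int.fract y) / 2) := by
  intro x x' h
  have h1 : (⌊x⌋ : ℝ) ≤ ⌊x'⌋ := by exact_mod_cast Int.floor_le_floor h.le
  simp only [Int.fract]
  push_cast
  linarith

theorem result :
    ∃ (I : Set ℝ) (F : I → I → I) (J : Set ℝ),
      I.OrdConnected ∧ I.Nontrivial ∧
      (∀ x y u v, F (F x y) (F u v) = F (F x u) (F y v)) ∧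
      (∀ x y, F x y = F y x) ∧
      (∀ y, StrictMono (fun x => F x y)) ∧ (∀ x, StrictMono (fun y => F x y)) ∧
      J.OrdConnected ∧ J.Nontrivial ∧ J ⊂ I ∧
      (∀ x : I, (x : ℝ) ∈ J → F x x = x) ∧
      ∃ x₀ : I, F x₀ x₀ ≠ x₀ := by
  refine ⟨Set.univ, fun x y => ⟨((⌊x.1⌋ + ⌊y.1⌋ : ℤ) : ℝ) + (Int.fract x.1 + Int.fract y.1) / 2,
    trivial⟩, Set.Ico 0 1, Set.ordConnected_univ, ⟨0, trivial, 1, trivial, by norm_num⟩, ?_, ?_, ?_,
    ?_, Set.ordConnected_Ico, ⟨0, by norm_num, 1 / 2, by norm_num, by norm_num⟩, ?_, ?_,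
    ⟨⟨1, trivial⟩, ?_⟩⟩
  · intro x y u v
    apply Subtype.ext
    simp only [fl, fr]
    push_cast
    ring
  · intro x y
    apply Subtype.ext
    simp only
    push_cast
    ring
  · intro y x x' h
    exact sm y.1 h
  · intro x y y' h
    have := sm x.1 (show y.1 < y'.1 from h)
    show ((⌊x.1⌋ + ⌊y.1⌋ : ℤ) : ℝ) + (Int.fract x.1 + Int.fract y.1) / 2
      < ((⌊x.1⌋ + ⌊y'.1⌋ : ℤ) : ℝ) + (Int.fract x.1 + Int.fract y'.1) / 2
    simp only at this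
    push_cast at this ⊢
    linarith
  · refine ⟨Set.subset_univ _, fun h => ?_⟩
    have := h (Set.mem_univ (1 : ℝ))
    simp at this
  · intro x hx
    apply Subtype.ext
    have h0 : ⌊x.1⌋ = 0 := Int.floor_eq_zero_iff.2 hx
    simp only [Int.fract, h0]
    push_cast
    ring
  · intro h
    have := congrArg Subtype.val h
    norm_num at this

end Pool.Agent.Results.MP_a2bf4b_an.Exists
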